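import Mathlib
import Pool.Agent.R830.Fam.Defs

/-! Definitions: the ring `F_3[t][x]/(x^3 - t^2 x)`, fixed ideals, trace ideals. -/

namespace Pool.Agent.R830.Fix

open Polynomial Pool.Agent.R830.Fam

/-- `F_3[t]` -/
abbrev A := (ZMod 3)[X]

/-- the polynomial `x^3 - t^2 x` over `F_3[t]` -/
noncomputable def f : A[X] := X ^ 3 - C (X ^ 2) * X

/-- `R = F_3[t][x]/(x^3 - t^2 x)` -/
abbrev R := AdjoinRoot f

/-- `Φ` generates `Hom_R(F_* R, R)` as a module over `F_* R`. -/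
def IsGenerator {R : Type} [CommRing R] (p : ℕ) (Φ : R →+ R) : Prop :=
  IsCartier p 1 Φ ∧ ∀ φ : R →+ R, IsCartier p 1 φ → ∃ g : R, ∀ r, φ r = Φ (g * r)

/-- `I` is fixed: `Φ(F_* I) = I` for a generator `Φ` of `Hom_R(F_* R, R)`. -/
def IsFixed {R : Type} [CommRing R] (p : ℕ) (I : Ideal R) : Prop :=
  ∃ Φ : R →+ R, IsGenerator p Φ ∧ {r | ∃ s ∈ I, Φ s = r} = (I : Set R)

/-- The trace ideal of `R → S`, as a set: the values at `1` of the `R`-linear maps `S → R`. -/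
def traceSet (R S : Type) [CommRing R] [CommRing S] [Algebra R S] : Set R :=
  {r | ∃ φ : S →ₗ[R] R, φ 1 = r}

end Pool.Agent.R830.Fix
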