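import Mathlib
import Pool.Agent.R830.Fix.Defs

/-! The trace generator `κ` on `F_3[t]`: `κ(Σ a_n t^n) = Σ a_{3n+2} t^n`. -/

namespace Pool.Agent.R830.Fix

open Polynomial

instance : Fact (Nat.Prime 3) := ⟨by norm_num⟩

/-- `κ(Σ a_n t^n) = Σ a_{3n+2} t^n` -/
noncomputable def κ : A →+ A where
  toFun a := divX (contract 3 (a * X))
  map_zero' := by simp [contract]
  map_add' a b := by
    rw [add_mul, contract_add (by norm_num), divX_add]

theorem coeff_κ (a : A) (n : ℕ) : (κ a).coeff n = a.coeff (3 * n + 2) := by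
  show (divX (contract 3 (a * X))).coeff n = _
  rw [coeff_divX, coeff_contract (by norm_num)]
  have : (n + 1) * 3 = (3 * n + 2) + 1 := by ring
  rw [this, coeff_mul_X]

theorem κ_pow_mul (b a : A) : κ (b ^ 3 * a) = b * κ a := by
  have h1 : b ^ 3 = expand (ZMod 3) 3 b := (ZMod.expand_card b).symm
  have h2 : b ^ 3 * a * X = (a * X) * expand (ZMod 3) 3 b := by rw [h1]; ring
  have h3 : contract 3 (b ^ 3 * a * X) = contract 3 (a * X) * b := by
    rw [h2, contract_mul_expand (by norm_num)]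
  have h4 : contract 3 (a * X) = κ a * X := by
    have := divX_mul_X_add (contract 3 (a * X))
    rw [coeff_contract (by norm_num)] at this
    simp at this
    exact this.symm
  show divX (contract 3 (b ^ 3 * a * X)) = b * κ a
  rw [h3, h4]
  ext n
  rw [coeff_divX]
  have : κ a * X * b = b * κ a * X := by ring
  rw [this, coeff_mul_X]

theorem κ_one : κ 1 = 0 := by
  ext n; rw [coeff_κ, coeff_one]; simp

theorem κ_X : κ X = 0 := by
  ext n; rw [coeff_κ, coeff_X]; simp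

theorem κ_X2 : κ (X ^ 2) = 1 := by
  ext n; rw [coeff_κ, coeff_X_pow, coeff_one]
  by_cases h : n = 0
  · simp [h]
  · rw [if_neg (by omega), if_neg h]

theorem κ_X3 : κ (X ^ 3) = 0 := by
  have := κ_pow_mul X 1
  rw [mul_one, κ_one, mul_zero] at this
  exact this

theorem κ_X4 : κ (X ^ 4) = 0 := by
  have := κ_pow_mul X X
  rw [κ_X, mul_zero] at this
  rw [← this]; ring_nf

/-- Duality: every `3⁻¹`-linear map `A → A` is `κ(h ·)`. -/
theorem κ_dual (ψ : A →+ A) (hψ : ∀ b a : A, ψ (b ^ 3 * a) = b * ψ a) :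
    ∃ h : A, ∀ a, ψ a = κ (h * a) := by
  refine ⟨ψ (X ^ 2) ^ 3 + ψ X ^ 3 * X + ψ 1 ^ 3 * X ^ 2, ?_⟩
  set h := ψ (X ^ 2) ^ 3 + ψ X ^ 3 * X + ψ 1 ^ 3 * X ^ 2 with hh
  have e0 : ψ 1 = κ (h * 1) := by
    rw [hh, mul_one, map_add, map_add, κ_pow_mul, κ_pow_mul, κ_X, κ_X2]
    have := κ_pow_mul (ψ (X ^ 2)) 1
    rw [mul_one, κ_one, mul_zero] at this
    rw [this]; ring
  have e1 : ψ X = κ (h * X) := by
    have : h * X = ψ (X ^ 2) ^ 3 * X + ψ X ^ 3 * X ^ 2 + ψ 1 ^ 3 * X ^ 3 := by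
      rw [hh]; ring
    rw [this, map_add, map_add, κ_pow_mul, κ_pow_mul, κ_pow_mul, κ_X, κ_X2, κ_X3]; ring
  have e2 : ψ (X ^ 2) = κ (h * X ^ 2) := by
    have : h * X ^ 2 = ψ (X ^ 2) ^ 3 * X ^ 2 + ψ X ^ 3 * X ^ 3 + ψ 1 ^ 3 * X ^ 4 := by
      rw [hh]; ring
    rw [this, map_add, map_add, κ_pow_mul, κ_pow_mul, κ_pow_mul, κ_X2, κ_X3, κ_X4]; ring
  intro a
  induction a using Polynomial.induction_on' with
  | add a b ha hb => rw [map_add, ha, hb, mul_add, map_add]
  | monomial n c =>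
    have hc : (C c : A) = C c ^ 3 := by rw [← C_pow, ZMod.pow_card]
    have key : ∀ i, ψ (X ^ i) = κ (h * X ^ i) →
        ψ ((C c * X ^ (n / 3)) ^ 3 * X ^ i) = κ (h * ((C c * X ^ (n / 3)) ^ 3 * X ^ i)) := by
      intro i hi
      rw [hψ, hi]
      have : h * ((C c * X ^ (n / 3)) ^ 3 * X ^ i) = (C c * X ^ (n / 3)) ^ 3 * (h * X ^ i) := by
        ring
      rw [this, κ_pow_mul]
    have hn : (monomial n c : A) = (C c * X ^ (n / 3)) ^ 3 * X ^ (n % 3) := by
      rw [mul_pow, ← hc, ← pow_mul, mul_assoc, ← pow_add, ← C_mul_X_pow_eq_monomial]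
      congr 2
      omega
    rw [hn]
    have h3 : n % 3 < 3 := Nat.mod_lt _ (by norm_num)
    interval_cases (n % 3)
    · apply key; simpa using e0
    · apply key; simpa using e1
    · apply key; exact e2

end Pool.Agent.R830.Fix
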