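import Mathlib
import Pool.Agent.R830.Fix.Kappa

/-! The ring `R = F_3[t][x]/(x^3 - t^2 x)`. -/

namespace Pool.Agent.R830.Fix

open Polynomial

theorem f_natDegree : f.natDegree = 3 := by
  unfold f
  compute_degree!

theorem f_monic : f.Monic := by
  unfold f
  monicity!

/-- `x` -/
noncomputable def x : R := AdjoinRoot.root f
/-- `t` -/
noncomputable def t : R := algebraMap A R X

theorem x_cube : x ^ 3 = t ^ 2 * x := by
  have h := AdjoinRoot.eval₂_root f
  have h2 : (f : A[X]) = X ^ 3 - C (X ^ 2) * X := rfl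
  rw [h2, eval₂_sub, eval₂_pow, eval₂_X, eval₂_mul, eval₂_C, eval₂_X] at h
  have h3 : x ^ 3 - algebraMap A R (X ^ 2) * x = 0 := h
  rw [map_pow] at h3
  exact sub_eq_zero.1 h3

/-- the basis `1, x, x^2` -/
noncomputable def B : Module.Basis (Fin 3) A R :=
  (AdjoinRoot.powerBasis' f_monic).basis.reindex (finCongr f_natDegree)

theorem B_apply (i : Fin 3) : B i = x ^ (i : ℕ) := by
  unfold B
  rw [Module.Basis.reindex_apply, PowerBasis.basis_eq_pow]
  rfl

/-- elements of `R` -/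
theorem exists_rep (r : R) : r = B.repr r 0 • (1 : R) + B.repr r 1 • x + B.repr r 2 • x ^ 2 := by
  conv_lhs => rw [← B.sum_repr r]
  rw [Fin.sum_univ_three, B_apply, B_apply, B_apply]
  simp

theorem repr_rep (a0 a1 a2 : A) (i : Fin 3) :
    B.repr (a0 • (1 : R) + a1 • x + a2 • x ^ 2) i = ![a0, a1, a2] i := by
  have h0 : B.repr (1 : R) = Finsupp.single 0 1 := by
    rw [← B.repr_self 0, B_apply]; simp
  have h1 : B.repr x = Finsupp.single 1 1 := by
    rw [← B.repr_self 1, B_apply]; simp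
  have h2 : B.repr (x ^ 2) = Finsupp.single 2 1 := by
    rw [← B.repr_self 2, B_apply]; simp
  rw [map_add, map_add, map_smul, map_smul, map_smul, h0, h1, h2]
  fin_cases i <;> simp

/-- the coefficient of `x^2` -/
noncomputable def θ : R →ₗ[A] A := B.coord 2

theorem θ_rep (a0 a1 a2 : A) : θ (a0 • (1 : R) + a1 • x + a2 • x ^ 2) = a2 := by
  show B.repr _ 2 = _
  rw [repr_rep]; rfl

theorem θ_mul_rep (a0 a1 a2 b0 b1 b2 : A) :
    θ ((a0 • (1 : R) + a1 • x + a2 • x ^ 2) * (b0 • (1 : R) + b1 • x + b2 • x ^ 2)) =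
      a0 * b2 + a1 * b1 + a2 * b0 + X ^ 2 * a2 * b2 := by
  have h4 : x ^ 4 = t ^ 2 * x ^ 2 := by
    calc x ^ 4 = x ^ 3 * x := by ring
      _ = t ^ 2 * x ^ 2 := by rw [x_cube]; ring
  have e : (a0 • (1 : R) + a1 • x + a2 • x ^ 2) * (b0 • (1 : R) + b1 • x + b2 • x ^ 2) =
      (a0 * b0) • (1 : R) + (a0 * b1 + a1 * b0 + X ^ 2 * (a1 * b2 + a2 * b1)) • x +
        (a0 * b2 + a1 * b1 + a2 * b0 + X ^ 2 * a2 * b2) • x ^ 2 := by
    simp only [Algebra.smul_def, map_add, map_mul, map_pow]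
    have ht : algebraMap A R X = t := rfl
    rw [ht]
    linear_combination (algebraMap A R a1 * algebraMap A R b2 +
      algebraMap A R a2 * algebraMap A R b1) * x_cube +
      algebraMap A R a2 * algebraMap A R b2 * h4
  rw [e, θ_rep]

/-- The pairing is nondegenerate. -/
theorem eq_zero_of_θ (y : R) (h : ∀ r, θ (r * y) = 0) : y = 0 := by
  have hy := exists_rep y
  set y0 := B.repr y 0
  set y1 := B.repr y 1
  set y2 := B.repr y 2
  have h0 := h ((1 : A) • (1 : R) + (0 : A) • x + (0 : A) • x ^ 2)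
  have h1 := h ((0 : A) • (1 : R) + (1 : A) • x + (0 : A) • x ^ 2)
  have h2 := h ((0 : A) • (1 : R) + (0 : A) • x + (1 : A) • x ^ 2)
  rw [hy, θ_mul_rep] at h0 h1 h2
  simp only [one_mul, zero_mul, add_zero, zero_add, mul_one, mul_zero] at h0 h1 h2
  rw [h0] at h2 hy
  rw [mul_zero, add_zero] at h2
  rw [h1, h2] at hy
  rw [hy]; simp

theorem θ_x_mul (r0 r1 r2 : A) : θ (x * (r0 • (1 : R) + r1 • x + r2 • x ^ 2)) = r1 := by
  have h := θ_mul_rep 0 1 0 r0 r1 r2
  rw [zero_smul, zero_smul, one_smul, zero_add, add_zero] at h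
  rw [h]; ring

theorem θ_b0_mul (r0 r1 r2 : A) :
    θ ((x ^ 2 - t ^ 2) * (r0 • (1 : R) + r1 • x + r2 • x ^ 2)) = r0 := by
  have e1 : x ^ 2 - t ^ 2 = (-X ^ 2 : A) • (1 : R) + (0 : A) • x + (1 : A) • x ^ 2 := by
    simp only [Algebra.smul_def, map_neg, map_pow, map_zero, map_one]
    have ht : algebraMap A R X = t := rfl
    rw [ht]; ring
  rw [e1, θ_mul_rep]; ring

/-- The dual basis of `1, x, x^2`. -/
theorem repr_eq_θ (r : R) :
    r = θ ((x ^ 2 - t ^ 2) * r) • (1 : R) + θ (x * r) • x + θ r • x ^ 2 := by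
  have hr := exists_rep r
  generalize B.repr r 0 = r0 at hr
  generalize B.repr r 1 = r1 at hr
  generalize B.repr r 2 = r2 at hr
  rw [hr, θ_b0_mul, θ_x_mul, θ_rep]

/-- The dual form: `r` is recovered from `θ (x^i r)`. -/
theorem repr_eq_θ' (r : R) :
    r = θ r • (x ^ 2 - t ^ 2) + θ (x * r) • x + θ (x ^ 2 * r) • (1 : R) := by
  have hr := exists_rep r
  generalize B.repr r 0 = r0 at hr
  generalize B.repr r 1 = r1 at hr
  generalize B.repr r 2 = r2 at hr
  have h2 : θ (x ^ 2 * (r0 • (1 : R) + r1 • x + r2 • x ^ 2)) = r0 + X ^ 2 * r2 := by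
    have h := θ_mul_rep 0 0 1 r0 r1 r2
    rw [zero_smul, zero_smul, one_smul, zero_add, zero_add] at h
    rw [h]; ring
  rw [hr, h2, θ_x_mul, θ_rep]
  simp only [Algebra.smul_def, map_add, map_mul, map_pow]
  have ht : algebraMap A R X = t := rfl
  rw [ht]; ring

theorem t_smul (r : R) : (X : A) • r = t * r := by
  rw [Algebra.smul_def]; rfl

/-- `t` does not divide `x^2` -/
theorem not_t_dvd : ¬ t ∣ x ^ 2 := by
  rintro ⟨r, hr⟩
  have h1 : θ (x ^ 2) = 1 := by
    have := θ_rep 0 0 1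
    simpa using this
  rw [hr, ← t_smul, map_smul, smul_eq_mul] at h1
  have := congrArg (Polynomial.eval 0) h1
  simp at this

theorem smul_eq_zero_R (a : A) (ha : a ≠ 0) (r : R) (h : a • r = 0) : r = 0 := by
  apply B.ext_elem
  intro i
  have h1 := congrArg (fun y => B.repr y i) h
  simp only [map_smul, Finsupp.smul_apply, smul_eq_mul, map_zero, Finsupp.zero_apply] at h1
  rw [map_zero, Finsupp.zero_apply]
  exact (mul_eq_zero.1 h1).resolve_left ha

theorem t_mul_cancel {r s : R} (h : t * r = t * s) : r = s := by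
  rw [← sub_eq_zero]
  apply smul_eq_zero_R X X_ne_zero
  rw [smul_sub, t_smul, t_smul, h, sub_self]

/-- `R` is generated by `A` and `x`. -/
theorem induction_R (M : R → Prop) (h0 : ∀ a : A, M (algebraMap A R a)) (hx : M x)
    (hadd : ∀ r s, M r → M s → M (r + s)) (hmul : ∀ r s, M r → M s → M (r * s)) (r : R) :
    M r := by
  rw [exists_rep r, Algebra.smul_def, Algebra.smul_def, Algebra.smul_def, mul_one, pow_two]
  exact hadd _ _ (hadd _ _ (h0 _) (hmul _ _ (h0 _) hx)) (hmul _ _ (h0 _) (hmul _ _ hx hx))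

instance : CharP R 3 := by
  have : Nontrivial R := by
    refine ⟨⟨x ^ 2, 0, fun h => not_t_dvd ?_⟩⟩
    rw [h]; exact dvd_zero _
  have : Algebra (ZMod 3) R := ((algebraMap A R).comp (C : ZMod 3 →+* A)).toAlgebra
  exact charP_of_injective_ringHom (algebraMap (ZMod 3) R).injective 3

end Pool.Agent.R830.Fix
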