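import Mathlib
import Pool.Agent.R830.Fam.Defs
import Pool.Agent.R830.Fix.Kappa
import Pool.Agent.R830.Fix.Ring

/-! The generator `Φ` of `Hom_R(F_* R, R)` and the fixed ideal `(t, x^2)`. -/

namespace Pool.Agent.R830.Fix

open Polynomial Pool.Agent.R830.Fam

theorem add_pow3 (r s : R) : (r + s) ^ 3 = r ^ 3 + s ^ 3 := add_pow_char (p := 3) r s

/-- The generator of `Hom_R(F_* R, R)`. -/
noncomputable def Φ : R →+ R where
  toFun r := κ (θ r) • (x ^ 2 - t ^ 2) + κ (θ (x ^ 3 * r)) • x + κ (θ (x ^ 6 * r)) • (1 : R)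
  map_zero' := by simp
  map_add' r s := by
    simp only [mul_add, map_add, add_smul]
    ring

theorem Φ_apply (r : R) : Φ r =
    κ (θ r) • (x ^ 2 - t ^ 2) + κ (θ (x ^ 3 * r)) • x + κ (θ (x ^ 6 * r)) • (1 : R) := rfl

theorem θ_pow_mul (a : A) (r : R) : θ (algebraMap A R a * r) = a * θ r := by
  rw [← Algebra.smul_def, map_smul, smul_eq_mul]

theorem Φ_A (a : A) (r : R) : Φ (algebraMap A R a ^ 3 * r) = algebraMap A R a * Φ r := by
  have e : ∀ u : R, θ (u * (algebraMap A R a ^ 3 * r)) = a ^ 3 * θ (u * r) := by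
    intro u
    rw [← θ_pow_mul, map_pow]; ring_nf
  have e1 : θ (algebraMap A R a ^ 3 * r) = a ^ 3 * θ r := by
    rw [← θ_pow_mul, map_pow]
  rw [Φ_apply, Φ_apply, e, e, e1, κ_pow_mul, κ_pow_mul, κ_pow_mul]
  simp only [Algebra.smul_def, map_mul]
  ring

theorem Φ_x (r : R) : Φ (x ^ 3 * r) = x * Φ r := by
  have e9 : θ (x ^ 6 * (x ^ 3 * r)) = (X ^ 2) ^ 3 * θ (x ^ 3 * r) := by
    rw [← θ_pow_mul]
    congr 1
    have : x ^ 6 * (x ^ 3 * r) = (x ^ 3) * (x ^ 3) * (x ^ 3) * r := by ring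
    rw [this, x_cube]
    have ht : algebraMap A R X = t := rfl
    rw [map_pow, map_pow, ht]
    have : t ^ 2 * x * (t ^ 2 * x) * (t ^ 2 * x) * r = (t ^ 2) ^ 3 * (x ^ 3 * r) := by ring
    rw [this, x_cube]
  have e6 : x ^ 3 * (x ^ 3 * r) = x ^ 6 * r := by ring
  rw [Φ_apply, Φ_apply, e9, e6, κ_pow_mul]
  simp only [Algebra.smul_def, map_mul, map_pow, mul_one]
  have ht : algebraMap A R X = t := rfl
  rw [ht]
  linear_combination (-algebraMap A R (κ (θ r))) * x_cube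

theorem Φ_cartier : IsCartier 3 1 Φ := by
  intro r s
  rw [pow_one]
  induction r using induction_R generalizing s with
  | h0 a => exact Φ_A a s
  | hx => exact Φ_x s
  | hadd r r' hr hr' => rw [add_pow3, add_mul, map_add, hr, hr', add_mul]
  | hmul r r' hr hr' => rw [mul_pow, mul_assoc, hr, hr', mul_assoc]

theorem θ_Φ (r : R) : θ (Φ r) = κ (θ r) := by
  have e : Φ r = (-X ^ 2 * κ (θ r) + κ (θ (x ^ 6 * r))) • (1 : R) + κ (θ (x ^ 3 * r)) • x
      + κ (θ r) • x ^ 2 := by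
    rw [Φ_apply]
    simp only [Algebra.smul_def, map_add, map_mul, map_neg, map_pow]
    have ht : algebraMap A R X = t := rfl
    rw [ht]; ring
  rw [e, θ_rep]

/-- Every element of `Hom_R(F_* R, R)` is `Φ(g ·)`. -/
theorem Φ_generates (φ : R →+ R) (hφ : IsCartier 3 1 φ) : ∃ g : R, ∀ r, φ r = Φ (g * r) := by
  have hφ' : ∀ r s : R, φ (r ^ 3 * s) = r * φ s := fun r s => by
    have := hφ r s
    rwa [pow_one] at this
  have hex : ∀ u : R, ∃ h : A, ∀ a : A, θ (φ (algebraMap A R a * u)) = κ (h * a) := by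
    intro u
    let ψ : A →+ A :=
      { toFun := fun a => θ (φ (algebraMap A R a * u))
        map_zero' := by simp
        map_add' := fun a b => by rw [map_add, add_mul, map_add, map_add] }
    apply κ_dual ψ
    intro b a
    show θ (φ (algebraMap A R (b ^ 3 * a) * u)) = b * θ (φ (algebraMap A R a * u))
    rw [(algebraMap A R).map_mul, (algebraMap A R).map_pow, mul_assoc, hφ', θ_pow_mul]
  obtain ⟨h0, H0⟩ := hex 1
  obtain ⟨h1, H1⟩ := hex x
  obtain ⟨h2, H2⟩ := hex (x ^ 2)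
  -- `g = h0 (x^2 - t^2) + h1 x + h2`
  let g : R := (h2 - X ^ 2 * h0) • (1 : R) + h1 • x + h0 • x ^ 2
  have hg : ∀ r, θ (φ r) = κ (θ (g * r)) := by
    intro r
    have hr := exists_rep r
    generalize B.repr r 0 = r0 at hr
    generalize B.repr r 1 = r1 at hr
    generalize B.repr r 2 = r2 at hr
    have e1 : θ (g * r) = h0 * r0 + h1 * r1 + h2 * r2 := by
      rw [hr, θ_mul_rep]; ring
    rw [e1, hr]
    simp only [Algebra.smul_def, map_add]
    rw [H0, H1, H2]
  refine ⟨g, fun r => ?_⟩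
  rw [← sub_eq_zero]
  apply eq_zero_of_θ
  intro u
  rw [mul_sub, map_sub, sub_eq_zero]
  have e1 := hg (u ^ 3 * r)
  have e2 := Φ_cartier u (g * r)
  rw [pow_one] at e2
  rw [hφ'] at e1
  have e3 : g * (u ^ 3 * r) = u ^ 3 * (g * r) := by ring
  rw [e1, ← e2, θ_Φ, e3]

/-- The ideal `(t, x^2)`. -/
noncomputable def I : Ideal R := Ideal.span {t, x ^ 2}

theorem t_mem : t ∈ I := Ideal.subset_span (by simp)
theorem x2_mem : x ^ 2 ∈ I := Ideal.subset_span (by simp)

theorem x_mul_I (r : R) (hr : r ∈ I) : ∃ s, x * r = t * s := by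
  obtain ⟨a, b, rfl⟩ := Ideal.mem_span_pair.1 hr
  refine ⟨a * x + b * t * x, ?_⟩
  linear_combination b * x_cube

theorem mem_I_of (r0 r1 r2 : A) (h0 : X ∣ r0) (h1 : X ∣ r1) :
    r0 • (1 : R) + r1 • x + r2 • x ^ 2 ∈ I := by
  obtain ⟨s0, rfl⟩ := h0
  obtain ⟨s1, rfl⟩ := h1
  rw [mul_smul, mul_smul, t_smul, t_smul, Algebra.smul_def r2]
  exact Ideal.add_mem _ (Ideal.add_mem _ (Ideal.mul_mem_right _ _ t_mem)
    (Ideal.mul_mem_right _ _ t_mem)) (Ideal.mul_mem_left _ _ x2_mem)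

theorem Φ_I_le (s : R) (hs : s ∈ I) : Φ s ∈ I := by
  have e : Φ s = (-X ^ 2 * κ (θ s) + κ (θ (x ^ 6 * s))) • (1 : R) + κ (θ (x ^ 3 * s)) • x
      + κ (θ s) • x ^ 2 := by
    rw [Φ_apply]
    simp only [Algebra.smul_def, map_add, map_mul, map_neg, map_pow]
    have ht : algebraMap A R X = t := rfl
    rw [ht]; ring
  rw [e]
  apply mem_I_of
  · apply dvd_add
    · exact ⟨-X * κ (θ s), by ring⟩
    · have h6 : x ^ 6 * s = algebraMap A R (X ^ 3 * X) * (x ^ 2 * s) := by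
        have : x ^ 6 * s = x ^ 3 * x ^ 3 * s := by ring
        rw [this, x_cube]
        have ht : algebraMap A R X = t := rfl
        rw [map_mul, map_pow, ht]; ring
      rw [h6, θ_pow_mul, mul_assoc, κ_pow_mul]
      exact dvd_mul_right _ _
  · have h3 : x ^ 3 * s = algebraMap A R (X ^ 2) * (x * s) := by
      rw [x_cube]
      have ht : algebraMap A R X = t := rfl
      rw [map_pow, ht]; ring
    obtain ⟨u, hu⟩ := x_mul_I s hs
    rw [h3, θ_pow_mul, hu, ← t_smul, map_smul, smul_eq_mul]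
    have : (X : A) ^ 2 * (X * θ u) = X ^ 3 * θ u := by ring
    rw [this, κ_pow_mul]
    exact dvd_mul_right _ _

theorem Φ_t : Φ t = t := by
  have e1 : θ t = 0 := by
    have := θ_rep X 0 0
    simp only [zero_smul, add_zero] at this
    rw [t_smul, mul_one] at this
    exact this
  have e2 : θ (x ^ 3 * t) = 0 := by
    have := θ_rep 0 (X ^ 3) 0
    simp only [zero_smul, add_zero, zero_add] at this
    rw [← this]
    congr 1
    rw [x_cube, Algebra.smul_def, map_pow]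
    have ht : algebraMap A R X = t := rfl
    rw [ht]; ring
  have e3 : θ (x ^ 6 * t) = X ^ 3 * X ^ 2 := by
    have := θ_rep 0 0 (X ^ 3 * X ^ 2)
    simp only [zero_smul, add_zero, zero_add] at this
    rw [← this]
    congr 1
    have h6 : x ^ 6 * t = x ^ 3 * x ^ 3 * t := by ring
    rw [h6, x_cube, Algebra.smul_def, map_mul, map_pow, map_pow]
    have ht : algebraMap A R X = t := rfl
    rw [ht]; ring
  rw [Φ_apply, e1, e2, e3, κ_pow_mul, κ_X2, map_zero, zero_smul, zero_smul, mul_one, t_smul]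
  ring

theorem Φ_x2 : Φ (t ^ 2 * x ^ 2) = x ^ 2 := by
  have ht : algebraMap A R X = t := rfl
  have e1 : θ (t ^ 2 * x ^ 2) = X ^ 2 := by
    have := θ_rep 0 0 (X ^ 2)
    simp only [zero_smul, zero_add] at this
    rw [Algebra.smul_def, map_pow, ht] at this
    exact this
  have e2 : θ (x ^ 3 * (t ^ 2 * x ^ 2)) = 0 := by
    have := θ_rep 0 (X ^ 6) 0
    simp only [zero_smul, add_zero, zero_add] at this
    rw [← this]
    congr 1
    rw [Algebra.smul_def, map_pow, ht]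
    linear_combination (t ^ 2 * x ^ 2 + t ^ 4) * x_cube
  have e3 : θ (x ^ 6 * (t ^ 2 * x ^ 2)) = (X ^ 2) ^ 3 * X ^ 2 := by
    have := θ_rep 0 0 ((X ^ 2) ^ 3 * X ^ 2)
    simp only [zero_smul, zero_add] at this
    rw [← this]
    congr 1
    rw [Algebra.smul_def, map_mul, map_pow, map_pow, ht]
    linear_combination (t ^ 2 * x ^ 5 + t ^ 4 * x ^ 3 + t ^ 6 * x) * x_cube
  rw [Φ_apply, e1, e2, e3, κ_pow_mul, κ_X2, map_zero, zero_smul, one_smul, mul_one,
    Algebra.smul_def, map_pow, ht]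
  ring

theorem Φ_I : {r | ∃ s ∈ I, Φ s = r} = (I : Set R) := by
  ext r
  constructor
  · rintro ⟨s, hs, rfl⟩
    exact Φ_I_le s hs
  · intro hr
    obtain ⟨a, b, rfl⟩ := Ideal.mem_span_pair.1 hr
    refine ⟨a ^ 3 * t + b ^ 3 * (t ^ 2 * x ^ 2), ?_, ?_⟩
    · exact Ideal.add_mem _ (Ideal.mul_mem_left _ _ t_mem)
        (Ideal.mul_mem_left _ _ (Ideal.mul_mem_left _ _ x2_mem))
    · have h := Φ_cartier
      have h1 := h a t
      have h2 := h b (t ^ 2 * x ^ 2)
      rw [pow_one] at h1 h2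
      rw [map_add, h1, h2, Φ_t, Φ_x2]

end Pool.Agent.R830.Fix
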