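import Mathlib
import Pool.Agent.R830.Fix.Ring
import Pool.Agent.R830.Fix.Phi

/-! The ideal `(t, x^2)` is not a trace ideal. -/

namespace Pool.Agent.R830.Fix

open Polynomial

section

variable {S : Type} [CommRing S] [Algebra R S] [Algebra A S] [IsScalarTower A R S]

/-- `θ`-duality: an `A`-linear form on `S` comes from an `R`-linear map `S → R`. -/
theorem exists_dual (ψ : S →ₗ[A] A) : ∃ φ : S →ₗ[R] R, ∀ s, θ (φ s) = ψ s := by
  let F : S → R := fun s =>
    ψ s • (x ^ 2 - t ^ 2) + ψ (x • s) • x + ψ (x ^ 2 • s) • (1 : R)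
  have hF : ∀ s, F s = algebraMap A R (ψ s) * (x ^ 2 - t ^ 2) +
      algebraMap A R (ψ (x • s)) * x + algebraMap A R (ψ (x ^ 2 • s)) := by
    intro s
    show ψ s • (x ^ 2 - t ^ 2) + ψ (x • s) • x + ψ (x ^ 2 • s) • (1 : R) = _
    rw [Algebra.smul_def (ψ s), Algebra.smul_def (ψ (x • s)), Algebra.smul_def (ψ (x ^ 2 • s)),
      mul_one]
  have hψ : ∀ (a : A) (s : S), ψ (a • s) = a * ψ s := fun a s => by
    rw [LinearMap.map_smul, smul_eq_mul]
  have hadd : ∀ s s', F (s + s') = F s + F s' := by
    intro s s'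
    rw [hF, hF, hF, smul_add, smul_add, map_add, map_add, map_add, map_add, map_add, map_add]
    ring
  have hA : ∀ (a : A) (s : S), F (algebraMap A R a • s) = algebraMap A R a * F s := by
    intro a s
    have e : ∀ u : R, u • (algebraMap A R a • s) = a • (u • s) := by
      intro u
      rw [algebraMap_smul, smul_comm]
    rw [hF, hF, e, e, algebraMap_smul, hψ, hψ, hψ, map_mul, map_mul, map_mul]
    ring
  have hx : ∀ s : S, F (x • s) = x * F s := by
    intro s
    have e1 : x • (x • s) = x ^ 2 • s := by rw [smul_smul, pow_two]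
    have e2 : x ^ 2 • (x • s) = (X ^ 2 : A) • (x • s) := by
      rw [smul_smul, ← pow_succ, x_cube, mul_smul]
      have ht : t ^ 2 = algebraMap A R (X ^ 2) := by rw [map_pow]; rfl
      rw [ht, algebraMap_smul]
    rw [hF, hF, e1, e2, hψ, map_mul, map_pow]
    have ht : algebraMap A R X = t := rfl
    rw [ht]
    linear_combination (-algebraMap A R (ψ s)) * x_cube
  have hsmul : ∀ (r : R) (s : S), F (r • s) = r * F s := by
    intro r
    induction r using induction_R with
    | h0 a => exact hA a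
    | hx => exact hx
    | hadd r r' hr hr' => intro s; rw [add_smul, hadd, hr, hr', add_mul]
    | hmul r r' hr hr' => intro s; rw [mul_smul, hr, hr', mul_assoc]
  refine ⟨{ toFun := F, map_add' := hadd, map_smul' := fun r s => by
              rw [hsmul]; rfl }, fun s => ?_⟩
  show θ (F s) = ψ s
  have e : F s = (-X ^ 2 * ψ s + ψ (x ^ 2 • s)) • (1 : R) + ψ (x • s) • x + ψ s • x ^ 2 := by
    rw [hF]
    generalize ψ s = p0
    generalize ψ (x • s) = p1
    generalize ψ (x ^ 2 • s) = p2
    simp only [Algebra.smul_def, map_add, map_mul, map_neg, map_pow]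
    have ht : algebraMap A R X = t := rfl
    rw [ht]; ring
  rw [e, θ_rep]

end

theorem gorenstein :
    Function.Bijective (fun r : R => θ.comp (LinearMap.mulLeft A r)) := by
  constructor
  · intro r s hrs
    rw [← sub_eq_zero]
    apply eq_zero_of_θ
    intro u
    have := LinearMap.congr_fun hrs u
    simp only [LinearMap.comp_apply, LinearMap.mulLeft_apply] at this
    rw [mul_sub, map_sub, mul_comm u r, mul_comm u s, this, sub_self]
  · intro ψ
    obtain ⟨φ, hφ⟩ := exists_dual (S := R) ψ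
    refine ⟨φ 1, ?_⟩
    ext1 s
    show θ (φ 1 * s) = ψ s
    rw [← hφ s]
    have := φ.map_smul s 1
    rw [smul_eq_mul, mul_one, smul_eq_mul] at this
    rw [this, mul_comm]

theorem trace_ne (S : Type) [CommRing S] [Algebra R S] [Module.Finite R S] :
    traceSet R S ≠ (I : Set R) := by
  intro h
  unfold traceSet at h
  let _ : Algebra A S := ((algebraMap R S).comp (algebraMap A R)).toAlgebra
  have : IsScalarTower A R S := IsScalarTower.of_algebraMap_eq' rfl
  have : Module.Finite A R := Module.Finite.of_basis B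
  have : Module.Finite A S := Module.Finite.trans R S
  let N := Submodule.torsion A S
  have hfree : Module.Free A (S ⧸ N) := inferInstance
  let b := Module.finBasis A (S ⧸ N)
  -- `x = t s` modulo torsion
  have hdiv : ∀ i, X ∣ b.repr (N.mkQ (x • (1 : S))) i := by
    intro i
    obtain ⟨φ, hφ⟩ := exists_dual (S := S) ((b.coord i).comp N.mkQ)
    have h1 : φ 1 ∈ I := by
      have : φ 1 ∈ {r : R | ∃ φ : S →ₗ[R] R, φ 1 = r} := ⟨φ, rfl⟩
      rw [h] at this
      exact this
    obtain ⟨u, hu⟩ := x_mul_I _ h1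
    have h2 := hφ (x • (1 : S))
    rw [map_smul, smul_eq_mul, hu, ← t_smul, map_smul, smul_eq_mul] at h2
    exact ⟨θ u, h2.symm⟩
  choose c hc using hdiv
  obtain ⟨s, hs⟩ := N.mkQ_surjective (∑ i, c i • b i)
  have hxs : N.mkQ (x • (1 : S) - (X : A) • s) = 0 := by
    rw [map_sub, N.mkQ.map_smul (X : A) s, hs, sub_eq_zero,
      ← b.sum_repr (N.mkQ (x • (1 : S))), Finset.smul_sum]
    apply Finset.sum_congr rfl
    intro i _
    rw [hc i, smul_smul]
  have hN : x • (1 : S) - (X : A) • s ∈ N := by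
    rwa [Submodule.mkQ_apply, Submodule.Quotient.mk_eq_zero] at hxs
  obtain ⟨a, ha⟩ := (Submodule.mem_torsion_iff _).1 hN
  obtain ⟨φ, hφ⟩ : ∃ φ : S →ₗ[R] R, φ 1 = t := by
    have : t ∈ {r : R | ∃ φ : S →ₗ[R] R, φ 1 = r} := by
      rw [h]; exact t_mem
    exact this
  set δ := x • (1 : S) - (X : A) • s with hδ
  have ha0 : (a : A) ≠ 0 := nonZeroDivisors.coe_ne_zero a
  have hker : ∀ w : S, φ (δ * w) = 0 := by
    intro w
    apply smul_eq_zero_R a ha0
    rw [← LinearMap.map_smul_of_tower, ← smul_mul_assoc]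
    have : (a : A) • δ = 0 := ha
    rw [this, zero_mul, map_zero]
  have hX : (X : A) • s = t • s := by
    rw [← algebraMap_smul R (X : A) s]; rfl
  have hsq : x ^ 2 • (1 : S) = t ^ 2 • (s * s) + δ * (t • s + t • s + δ) := by
    have e1 : x • (1 : S) = t • s + δ := by rw [hδ, hX]; abel
    have e2 : x ^ 2 • (1 : S) = (x • (1 : S)) * (x • (1 : S)) := by
      rw [smul_mul_smul_comm, mul_one, pow_two]
    rw [e2, e1]
    have e3 : t ^ 2 • (s * s) = (t • s) * (t • s) := by
      rw [smul_mul_smul_comm, pow_two]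
    rw [e3]; ring
  have hfin := congrArg φ hsq
  rw [map_smul, hφ, map_add, hker, add_zero, map_smul, smul_eq_mul, smul_eq_mul] at hfin
  have h4 : t * x ^ 2 = t * (t * φ (s * s)) := by
    rw [mul_comm, hfin]; ring
  exact not_t_dvd ⟨_, t_mul_cancel h4⟩

end Pool.Agent.R830.Fix
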